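import Pool.Agent.Y802.EV.Irr
import Pool.Agent.Y802.QV.Res

/-!
# Even representations with absolutely irreducible reduction

Let `p` be an odd prime, `F` a number field (for instance `ℚ`) and `ρ` a continuous representation
of the absolute Galois group of `F` on a free module of rank `n` prime to `p` (for instance two)
over a Noetherian local ring `A` with finite residue field `k` of characteristic `p` (for instance
the integers of a finite extension of `ℚ_p`). Let `ad⁰` be the representation on the trace zero
matrices over `k` given by conjugation with the reduction of `ρ`. Suppose that the centralizer of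
the image of the reduction consists of scalars (for instance, that the reduction is absolutely
irreducible) and that the reduction of complex conjugation is a scalar (`ρ` is even). Let `K` be a
CM field, Galois over `F`, which contains the `p`-th roots of unity and on which the projectivized
reduction is trivial. If

* the `ad⁰(1)`-part of the class group of `K` is trivial, and
* `ad⁰(-1)` has no nonzero invariant under the decomposition groups at the places of `F`
  (including those above `p`) at which the projectivization of `ρ`, restricted to the absolute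
  Galois group of `K`, is ramified,

then `ρ` is scalar on the absolute Galois group of `K`, so that the projective image of `ρ` is
finite. In particular there are no representations of this kind which have distinct Hodge-Tate
weights, as predicted by the conjecture of Fontaine and Mazur (modular forms are odd).
-/

set_option autoImplicit false

open NumberField IsLocalRing

namespace Pool.Agent.Results.MP_b583a4_nt.EvenIrreducible

section

variable {F : Type} [Field F]

/-- The decomposition group of the ideal `Q` of the ring of all algebraic integers. -/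
def Decomposition (Q : Ideal (𝓞 (AlgebraicClosure F))) : Set Gal(AlgebraicClosure F/F) :=
  {σ | ∀ x : 𝓞 (AlgebraicClosure F), σ • x ∈ Q ↔ x ∈ Q}

/-- The inertia group of the ideal `Q` of the ring of all algebraic integers. -/
def Inertia (Q : Ideal (𝓞 (AlgebraicClosure F))) : Set Gal(AlgebraicClosure F/F) :=
  {σ | ∀ x : 𝓞 (AlgebraicClosure F), σ • x - x ∈ Q}

/-- `σ z = z ^ b` for all `p`-th roots of unity `z`, that is, `ω(σ)` is the class of `b`. -/
def CycPow (p : ℕ) (σ : Gal(AlgebraicClosure F/F)) (b : ℕ) : Prop :=
  ∀ z : AlgebraicClosure F, z ^ p = 1 → σ z = z ^ b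

/-- The nonzero ideals `I` and `J` have the same class in the ideal class group. -/
def SameClass {K : Type} [Field K] (I J : Ideal (𝓞 K)) : Prop :=
  ∃ x y : 𝓞 K, x ≠ 0 ∧ y ≠ 0 ∧ Ideal.span {x} * I = Ideal.span {y} * J

/-- The image of the ideal `I` of the ring of integers of `K` under `σ`. -/
noncomputable def image (K : IntermediateField F (AlgebraicClosure F)) [IsGalois F K]
    (σ : Gal(AlgebraicClosure F/F)) (I : Ideal (𝓞 K)) : Ideal (𝓞 K) :=
  I.map (RingOfIntegers.mapRingEquiv
    ((AlgEquiv.restrictNormalHom K σ : K ≃ₐ[F] K) : K ≃+* K) : 𝓞 K →+* 𝓞 K)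

/-- The reduction of the representation `ρ`. -/
noncomputable def reduction {A : Type} [CommRing A] [IsLocalRing A] {n : ℕ}
    (ρ : Gal(AlgebraicClosure F/F) →* GL (Fin n) A) (σ : Gal(AlgebraicClosure F/F)) :
    Matrix (Fin n) (Fin n) (ResidueField A) :=
  (ρ σ : Matrix (Fin n) (Fin n) A).map (residue A)

/-- The `ad⁰(1)`-part of the class group of `K` is trivial: every homomorphism `X ↦ [I X]` from
the additive group of trace zero matrices to the class group of `K`, such that the image of `I X`
under `σ` is in the class of `I (ω(σ) ρ̄(σ) X ρ̄(σ)⁻¹)` for all `σ` in the absolute Galois group of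
`F`, is trivial. -/
def TrivialPart (K : IntermediateField F (AlgebraicClosure F)) [IsGalois F K] (p : ℕ)
    {k : Type} [Field k] {n : ℕ} (R : Gal(AlgebraicClosure F/F) → Matrix (Fin n) (Fin n) k) :
    Prop :=
  ∀ I : Matrix (Fin n) (Fin n) k → Ideal (𝓞 K), (∀ X, X.trace = 0 → I X ≠ ⊥) →
    (∀ X Y, X.trace = 0 → Y.trace = 0 → SameClass (I (X + Y)) (I X * I Y)) →
    (∀ σ b, CycPow p σ b → ∀ X, X.trace = 0 →
      SameClass (I ((b : k) • (R σ * X * R σ⁻¹))) (image K σ (I X))) →
    ∀ X, X.trace = 0 → (I X).IsPrincipal

end

/-- `hK`: `K` contains the `p`-th roots of unity. `hc`: `K` is a CM field (`c` acts as complex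
conjugation for all embeddings; so `F` is totally real). `hsc`: the projectivized reduction is
trivial on the absolute Galois group of `K`. `heven`: complex conjugation acts by a scalar.
`hcent`: the reduction has only scalar endomorphisms. The conclusion: `ρ` is scalar on the absolute
Galois group of `K`, a subgroup of finite index. -/
theorem result (p : ℕ) [Fact p.Prime] (hp2 : p ≠ 2) (F : Type) [Field F] [NumberField F]
    (K : IntermediateField F (AlgebraicClosure F)) [NumberField K] [IsGalois F K]
    (hK : ∀ z : AlgebraicClosure F, z ^ p = 1 → z ∈ K)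
    (c : Gal(AlgebraicClosure F/F))
    (hc : ∀ φ : AlgebraicClosure F →+* ℂ, ∀ x ∈ K, φ (c x) = (starRingEnd ℂ) (φ x))
    (A : Type) [CommRing A] [IsLocalRing A] [IsNoetherianRing A]
    [TopologicalSpace A] (hA : IsAdic (maximalIdeal A))
    (hfin : Finite (ResidueField A)) (hpA : (p : A) ∈ maximalIdeal A) (n : ℕ) (hn : ¬ p ∣ n)
    (ρ : Gal(AlgebraicClosure F/F) →* GL (Fin n) A) (hρ : Continuous ρ)
    (hsc : ∀ g ∈ K.fixingSubgroup, ∃ s : ResidueField A, reduction ρ g = s • 1)
    (heven : ∃ s : ResidueField A, reduction ρ c = s • 1)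
    (hcent : ∀ Z : Matrix (Fin n) (Fin n) (ResidueField A),
      (∀ g, reduction ρ g * Z = Z * reduction ρ g) → ∃ s : ResidueField A, Z = s • 1)
    (hcls : ¬ p ∣ classNumber K ∨ TrivialPart K p (reduction ρ))
    (hram : ∀ Q : Ideal (𝓞 (AlgebraicClosure F)), Q.IsMaximal →
      (∀ τ ∈ K.fixingSubgroup, τ ∈ Inertia Q →
        ∃ s : A, (ρ τ : Matrix (Fin n) (Fin n) A) = s • 1) ∨
      ∀ Z : Matrix (Fin n) (Fin n) (ResidueField A), Z.trace = 0 →
        (∀ σ b, σ ∈ Decomposition Q → CycPow p σ b →
          reduction ρ σ * Z = (b : ResidueField A) • (Z * reduction ρ σ)) → Z = 0) :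
    K.fixingSubgroup.FiniteIndex ∧ ∀ g ∈ K.fixingSubgroup,
      ∃ a : A, (ρ g : Matrix (Fin n) (Fin n) A) = a • 1 := by
  have hchar : CharP (ResidueField A) p := Pool.Agent.Y802.EV.charP_residue hpA
  have hn' : (n : ResidueField A) ≠ 0 := fun h =>
    hn ((CharP.cast_eq_zero_iff (ResidueField A) p n).1 h)
  refine ⟨Pool.Agent.Y802.EV.finiteIndex_fix, ?_⟩
  refine Pool.Agent.Y802.EV.scalar_of_even hp2 hK c hc hn' (Pool.Agent.Y802.QV.mat ρ) heven ?_
    hcent ?_ (fun i => ?_) hsc
  · rcases hcls with h | h
    · exact Pool.Agent.Y802.EV.noAd_of_prime h _ _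
    · exact h
  · exact hram
  · obtain ⟨U, hU, hU1⟩ := Pool.Agent.Y802.QV.exists_open (H := K.fixingSubgroup) hA ρ hρ i
    refine ⟨U, hU, fun h hh r s => ?_⟩
    have h1 := hU1 h hh
    have h2 : ∀ X ∈ (maximalIdeal A ^ i) • (⊤ : Submodule A (Matrix (Fin n) (Fin n) A)),
        X r s ∈ maximalIdeal A ^ i := by
      intro X hX
      refine Submodule.smul_induction_on hX (fun a ha w _ => ?_) fun w w' hw hw' => ?_
      · exact Ideal.mul_mem_right _ _ ha
      · exact Ideal.add_mem _ hw hw'
    exact h2 _ h1

end Pool.Agent.Results.MP_b583a4_nt.EvenIrreducible
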