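import Pool.Agent.Y802.EV.Cls

/-!
# Even two-dimensional representations with reducible reduction

Let `p` be an odd prime, `F` a number field (for instance `ℚ`) and `ρ` a continuous representation
of the absolute Galois group of `F` on a free module of rank two over a complete Noetherian local
ring `A` with finite residue field `k` of characteristic `p` (for instance the integers of a finite
extension of `ℚ_p`), such that the semisimplification of its reduction is the sum of two different
characters `χ₁`, `χ₂` and such that `χ₁ / χ₂` is even. Let `K` be a CM field, Galois over `F` of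
degree prime to `p`, which contains the `p`-th roots of unity and on which `χ₁`, `χ₂` are trivial.
Let `ω` be the Teichmüller character, and let `ψ` be one of `χ₁ / χ₂`, `χ₂ / χ₁`. If

* the `ω ψ⁻¹`-part of the class group of `K` is trivial, and
* `ψ` and `ω` are different on the decomposition groups at the places of `F` (including those above
  `p`) at which the restriction of `ρ` to the absolute Galois group of `K` is ramified,

then `ρ` has an invariant line. So there are no irreducible even representations of this kind,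
as predicted by the conjecture of Fontaine and Mazur for those with distinct Hodge-Tate weights
(modular forms are odd).

The proof combines Ribet's lemma with Kummer theory: an equivariant homomorphism from the absolute
Galois group of `K` to `k(ψ)` gives `p`-th powers of ideals generated by elements on which complex
conjugation acts by inversion, and units of this kind are roots of unity.
-/

set_option autoImplicit false

open NumberField IsLocalRing

namespace Pool.Agent.Results.MP_b583a4_nt.EvenReducible

section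

variable {F : Type} [Field F]

/-- The decomposition group of the ideal `Q` of the ring of all algebraic integers. -/
def Decomposition (Q : Ideal (𝓞 (AlgebraicClosure F))) : Set Gal(AlgebraicClosure F/F) :=
  {σ | ∀ x : 𝓞 (AlgebraicClosure F), σ • x ∈ Q ↔ x ∈ Q}

/-- The inertia group of the ideal `Q` of the ring of all algebraic integers. -/
def Inertia (Q : Ideal (𝓞 (AlgebraicClosure F))) : Set Gal(AlgebraicClosure F/F) :=
  {σ | ∀ x : 𝓞 (AlgebraicClosure F), σ • x - x ∈ Q}

/-- `σ z = z ^ b` for all `p`-th roots of unity `z`, that is, `ω(σ)` is the class of `b`. -/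
def CycPow (p : ℕ) (σ : Gal(AlgebraicClosure F/F)) (b : ℕ) : Prop :=
  ∀ z : AlgebraicClosure F, z ^ p = 1 → σ z = z ^ b

/-- The nonzero ideals `I` and `J` have the same class in the ideal class group. -/
def SameClass {K : Type} [Field K] (I J : Ideal (𝓞 K)) : Prop :=
  ∃ x y : 𝓞 K, x ≠ 0 ∧ y ≠ 0 ∧ Ideal.span {x} * I = Ideal.span {y} * J

/-- The image of the ideal `I` of the ring of integers of `K` under `σ`. -/
noncomputable def image (K : IntermediateField F (AlgebraicClosure F)) [IsGalois F K]
    (σ : Gal(AlgebraicClosure F/F)) (I : Ideal (𝓞 K)) : Ideal (𝓞 K) :=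
  I.map (RingOfIntegers.mapRingEquiv
    ((AlgEquiv.restrictNormalHom K σ : K ≃ₐ[F] K) : K ≃+* K) : 𝓞 K →+* 𝓞 K)

/-- The `ω ψ⁻¹`-part of the class group of `K` is trivial: every homomorphism `x ↦ [I x]` from the
additive group of `k` to the class group of `K`, such that the image of `I x` under `σ` is in the
class of `I (ω(σ) ψ(σ)⁻¹ x)` for all `σ` in the absolute Galois group of `F`, is trivial. -/
def TrivialPart (K : IntermediateField F (AlgebraicClosure F)) [IsGalois F K] (p : ℕ)
    (k : Type) [Field k] (ψ : Gal(AlgebraicClosure F/F) →* kˣ) : Prop :=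
  ∀ I : k → Ideal (𝓞 K), (∀ x, I x ≠ ⊥) → (∀ x y, SameClass (I (x + y)) (I x * I y)) →
    (∀ σ b, CycPow p σ b → ∀ x, SameClass (I (b * (ψ σ : k)⁻¹ * x)) (image K σ (I x))) →
    ∀ x, (I x).IsPrincipal

end

/-- `hK`: `K` contains the `p`-th roots of unity. `hc`: `K` is a CM field (`c` acts as complex
conjugation for all embeddings; so `F` is totally real). `htr`: as `p` is odd, this says that the
semisimplification of the reduction of `ρ` is the sum of `χ₁` and `χ₂`. `heven`: `χ₁ / χ₂` is even,
which holds if `ρ c` is a scalar, as for even `ρ`. The conclusion: `ρ` has an invariant line, which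
is a direct summand of `A ^ 2`. -/
theorem result (p : ℕ) [Fact p.Prime] (hp2 : p ≠ 2) (F : Type) [Field F] [NumberField F]
    (K : IntermediateField F (AlgebraicClosure F)) [NumberField K] [IsGalois F K]
    (hK : ∀ z : AlgebraicClosure F, z ^ p = 1 → z ∈ K) (hdeg : ¬ p ∣ Module.finrank F K)
    (c : Gal(AlgebraicClosure F/F))
    (hc : ∀ φ : AlgebraicClosure F →+* ℂ, ∀ x ∈ K, φ (c x) = (starRingEnd ℂ) (φ x))
    (A : Type) [CommRing A] [IsLocalRing A] [IsNoetherianRing A]
    [IsAdicComplete (maximalIdeal A) A] [TopologicalSpace A] (hA : IsAdic (maximalIdeal A))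
    (hfin : Finite (ResidueField A)) (hpA : (p : A) ∈ maximalIdeal A)
    (ρ : Gal(AlgebraicClosure F/F) →* GL (Fin 2) A) (hρ : Continuous ρ)
    (χ₁ χ₂ : Gal(AlgebraicClosure F/F) →* (ResidueField A)ˣ)
    (htr : ∀ g, residue A (ρ g : Matrix (Fin 2) (Fin 2) A).trace = χ₁ g + χ₂ g)
    (hχ : ∀ g ∈ K.fixingSubgroup, χ₁ g = 1 ∧ χ₂ g = 1) (hne : χ₁ ≠ χ₂) (heven : χ₁ c = χ₂ c)
    (ψ : Gal(AlgebraicClosure F/F) →* (ResidueField A)ˣ) (hψ : ψ = χ₁ / χ₂ ∨ ψ = χ₂ / χ₁)
    (hcls : ¬ p ∣ classNumber K ∨ TrivialPart K p (ResidueField A) ψ)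
    (hram : ∀ Q : Ideal (𝓞 (AlgebraicClosure F)), Q.IsMaximal →
      (∀ τ ∈ K.fixingSubgroup, τ ∈ Inertia Q → ρ τ = 1) ∨
      ∃ σ b, σ ∈ Decomposition Q ∧ CycPow p σ b ∧ (ψ σ : ResidueField A) ≠ b) :
    ∃ v : Fin 2 → A, (∃ i, IsUnit (v i)) ∧
      ∀ g, ∃ a : A, (ρ g : Matrix (Fin 2) (Fin 2) A).mulVec v = a • v := by
  have hchar : CharP (ResidueField A) p := Pool.Agent.Y802.EV.charP_residue hpA
  have hfix : K.fixingSubgroup.FiniteIndex := Pool.Agent.Y802.EV.finiteIndex_fix
  have h2 : (2 : ResidueField A) ≠ 0 := by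
    intro h
    have h1 : ((2 : ℕ) : ResidueField A) = 0 := by exact_mod_cast h
    rw [CharP.cast_eq_zero_iff (ResidueField A) p] at h1
    exact hp2 ((Nat.prime_dvd_prime_iff_eq Fact.out Nat.prime_two).1 h1)
  have hidx : (K.fixingSubgroup.index : ResidueField A) ≠ 0 := by
    rw [Pool.Agent.Y802.EV.index_fix]
    intro h
    exact hdeg ((CharP.cast_eq_zero_iff (ResidueField A) p _).1 h)
  have hcls' : Pool.Agent.Y802.EV.NoPart K p (ResidueField A) ψ := by
    rcases hcls with h | h
    · exact Pool.Agent.Y802.EV.noPart_of_prime h _ _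
    · exact h
  -- the two orderings of the characters
  have key : ∀ χ χ' : Gal(AlgebraicClosure F/F) →* (ResidueField A)ˣ,
      (∀ g, residue A (ρ g : Matrix (Fin 2) (Fin 2) A).trace = χ g + χ' g) →
      (∀ g ∈ K.fixingSubgroup, χ g = 1 ∧ χ' g = 1) → χ ≠ χ' → χ c = χ' c → ψ = χ / χ' →
      ∃ v : Fin 2 → A, (∃ i, IsUnit (v i)) ∧
        ∀ g, ∃ a : A, (ρ g : Matrix (Fin 2) (Fin 2) A).mulVec v = a • v := by
    intro χ χ' htr hχ hne heven hψ
    rcases Pool.Agent.Y802.EV.ribet hA h2 K.fixingSubgroup hidx ρ hρ χ χ' htr hχ hne with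
      h | ⟨β, h1, h3, h4, h5, h6⟩
    · exact h
    · exfalso
      refine Pool.Agent.Y802.EV.no_beta hp2 hK c hc (ResidueField A) ψ ?_ ?_ hcls' β h1 h3 ?_ h6 ?_
      · rw [hψ]
        intro h
        exact hne (div_eq_one.1 h)
      · rw [hψ, MonoidHom.div_apply, heven, div_self']
      · intro σ h
        rw [h4, hψ, MonoidHom.div_apply, Units.val_div_eq_div_val, div_eq_mul_inv,
          Units.val_inv_eq_inv_val]
      · intro Q hQ
        rcases hram Q hQ with h | ⟨σ, b, h7, h8, h9⟩
        · exact Or.inl fun τ hτ => h5 τ (h τ τ.2 hτ)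
        · exact Or.inr ⟨σ, b, h7, h8, h9⟩
  rcases hψ with h | h
  · exact key χ₁ χ₂ htr hχ hne heven h
  · exact key χ₂ χ₁ (fun g => by rw [htr, add_comm]) (fun g hg => (hχ g hg).symm) hne.symm
      heven.symm h

end Pool.Agent.Results.MP_b583a4_nt.EvenReducible
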