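import Pool.Agent.Y719.NG.TwInt

/-!
# One modulus on the edge decides modularity over `ℚ`

Let `V` be an irreducible `p`-adic representation of `G_ℚ`, for example of dimension two and potentially
semistable at `p`, and let `W_j` be finitely many semisimple representations, for example
`W_j = V_{f_j} ⊗ χ_j` for cuspidal eigenforms `f_j` and characters `χ_j`, and `m_j` integers of any sign.
If the logarithm of `|L(V, s)| / ∏_j |L(W_j, s)| ^ m_j` on the edge of absolute convergence is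
concentrated, for example constant on a set of positive upper density of the line, then `V` is a
subrepresentation of a `W_j` with `m_j > 0`; for `W_j = V_{f_j} ⊗ χ_j` and `dim V = 2` this says that
`V` is isomorphic to `V_{f_j} ⊗ χ_j`.  Conversely, if `V` is isomorphic to `V_f ⊗ χ`, then the quotient
of the moduli for this single representation is constant.  So the conclusion of the conjecture of
Fontaine and Mazur for `V` is a property of one positive function on a line, with no condition at `p`,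
no phase, no twist and no residual hypothesis.
-/

set_option autoImplicit false

namespace Pool.Agent.Results.MP_b583a4_nt.OneModulus

open NumberField IsDedekindDomain MeasureTheory Filter Topology Polynomial

section
variable {p : ℕ} [Fact p.Prime] {n : ℕ}

/-- `g` is a Frobenius element at `v`: for some maximal ideal `Q` above `v` of the ring of all
algebraic integers, `g x ≡ x ^ N(v)` modulo `Q` for all `x`. -/
def Frobenius (v : HeightOneSpectrum (𝓞 ℚ)) (g : Gal(AlgebraicClosure ℚ/ℚ)) : Prop :=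
  ∃ Q : Ideal (𝓞 (AlgebraicClosure ℚ)), Q.IsMaximal ∧
    Q.comap (algebraMap (𝓞 ℚ) (𝓞 (AlgebraicClosure ℚ))) = v.asIdeal ∧
    ∀ x : 𝓞 (AlgebraicClosure ℚ), g • x - x ^ Ideal.absNorm v.asIdeal ∈ Q

/-- `g` lies in an inertia group at `v`: for some maximal ideal `Q` above `v` of the ring of all
algebraic integers, `g x ≡ x` modulo `Q` for all `x`. -/
def Inertia (v : HeightOneSpectrum (𝓞 ℚ)) (g : Gal(AlgebraicClosure ℚ/ℚ)) : Prop :=
  ∃ Q : Ideal (𝓞 (AlgebraicClosure ℚ)), Q.IsMaximal ∧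
    Q.comap (algebraMap (𝓞 ℚ) (𝓞 (AlgebraicClosure ℚ))) = v.asIdeal ∧
    ∀ x : 𝓞 (AlgebraicClosure ℚ), g • x - x ∈ Q

/-- The matrix of `g`. -/
noncomputable def matrix (ρ : Gal(AlgebraicClosure ℚ/ℚ) →* GL (Fin n) (PadicAlgCl p))
    (g : Gal(AlgebraicClosure ℚ/ℚ)) : Matrix (Fin n) (Fin n) (PadicAlgCl p) :=
  (ρ g : GL (Fin n) (PadicAlgCl p))

/-- `W` is a stable subspace. -/
def Stable (ρ : Gal(AlgebraicClosure ℚ/ℚ) →* GL (Fin n) (PadicAlgCl p))
    (W : Submodule (PadicAlgCl p) (Fin n → PadicAlgCl p)) : Prop :=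
  ∀ g, ∀ x ∈ W, (matrix ρ g).mulVec x ∈ W

/-- `ρ` is irreducible. -/
def Irreducible (ρ : Gal(AlgebraicClosure ℚ/ℚ) →* GL (Fin n) (PadicAlgCl p)) : Prop :=
  0 < n ∧ ∀ W, Stable ρ W → W = ⊥ ∨ W = ⊤

/-- `ρ` is semisimple: every stable subspace has a stable complement. -/
def Semisimple (ρ : Gal(AlgebraicClosure ℚ/ℚ) →* GL (Fin n) (PadicAlgCl p)) : Prop :=
  ∀ W, Stable ρ W → ∃ W', Stable ρ W' ∧ IsCompl W W'

/-- `v` lies above a prime number in `S`. -/
def Bad (S : Finset ℕ) (v : HeightOneSpectrum (𝓞 ℚ)) : Prop :=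
  ∃ q ∈ S, (q : 𝓞 ℚ) ∈ v.asIdeal

/-- `P` is the family of Euler factors of `ρ` away from `S`, and `ρ` has weights at most `w`: `P_v` is
`1` for `v` above `S`; for all other `v` the representation is unramified and `P_v` is
`det(1 - X ρ(g⁻¹))` for the Frobenius elements `g` at `v`, with coefficients mapped to `ℂ` by `ι`;
the inverse roots of `P_v` are at most `Nv^{w/2}` in absolute value. -/
structure EulerFactors (S : Finset ℕ) (w : ℝ) (ι : PadicAlgCl p →+* ℂ)
    (ρ : Gal(AlgebraicClosure ℚ/ℚ) →* GL (Fin n) (PadicAlgCl p))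
    (P : HeightOneSpectrum (𝓞 ℚ) → ℂ[X]) : Prop where
  bad : ∀ v, Bad S v → P v = 1
  unramified : ∀ v, ¬ Bad S v → ∀ g, Inertia v g → ρ g = 1
  frobenius : ∀ v, ¬ Bad S v → ∀ g, Frobenius v g → (matrix ρ g⁻¹).charpolyRev.map ι = P v
  weight : ∀ v, ∀ z : ℂ, (P v).eval z = 0 →
    (Ideal.absNorm v.asIdeal : ℝ) ^ (-(w / 2)) ≤ ‖z‖

/-- The Euler product `∏_v P_v(Nv^{-s})⁻¹`. -/
noncomputable def L (P : HeightOneSpectrum (𝓞 ℚ) → ℂ[X]) (s : ℂ) : ℂ :=
  ∏' v : HeightOneSpectrum (𝓞 ℚ), ((P v).eval ((Ideal.absNorm v.asIdeal : ℂ) ^ (-s)))⁻¹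

/-- The limit of `|L(w/2 + 1 + σ + iτ)|` for `σ → 0`, `σ > 0`. -/
noncomputable def edgeAbs (w : ℝ) (P : HeightOneSpectrum (𝓞 ℚ) → ℂ[X]) (τ : ℝ) : ℝ :=
  limUnder (𝓝[>] (0 : ℝ)) fun σ : ℝ => ‖L P (((w / 2 + 1 : ℝ) : ℂ) + σ + τ * Complex.I)‖

end

/-- The values of `f` are concentrated: there is `δ > 0` such that for every `ε > 0` there are
arbitrarily large `T` and a real number `x` with `|f - x| < ε` on a subset of `(0, T]` of measure at
least `δ T`. -/
def Concentrated (f : ℝ → ℝ) : Prop :=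
  ∃ δ : ℝ, 0 < δ ∧ ∀ ε : ℝ, 0 < ε → ∃ᶠ T : ℝ in atTop, ∃ x : ℝ,
    ENNReal.ofReal (δ * T) ≤ volume {τ | τ ∈ Set.Ioc 0 T ∧ |f τ - x| < ε}

/-- **One modulus over `ℚ`.**  Let `V` be an irreducible and `W_j` finitely many semisimple `p`-adic
representations of `G_ℚ` with the Euler factors `P` and `R_j` of weight at most `w` away from `S`, for
example `W_j = V_{f_j} ⊗ χ_j` for eigenforms `f_j`, and let `m_j` be integers.  If the logarithm of
`|L(V, s)| / ∏_j |L(W_j, s)| ^ m_j` on the line `Re s = w/2 + 1` is concentrated, then there is `j` with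
`m_j > 0` such that `V` is a subrepresentation of `W_j`: there is an injective matrix `H` with
`W_j(g) H = H V(g)` for all `g`. -/
theorem result (p : ℕ) [Fact p.Prime]
    (ι : PadicAlgCl p →+* ℂ) (S : Finset ℕ) (hS : ∀ q ∈ S, q.Prime) (w : ℝ)
    (κ : Type) [Fintype κ] (n : ℕ) (N : κ → ℕ) (m : κ → ℤ)
    (V : Gal(AlgebraicClosure ℚ/ℚ) →* GL (Fin n) (PadicAlgCl p))
    (W : ∀ j, Gal(AlgebraicClosure ℚ/ℚ) →* GL (Fin (N j)) (PadicAlgCl p))
    (P : HeightOneSpectrum (𝓞 ℚ) → ℂ[X]) (R : κ → HeightOneSpectrum (𝓞 ℚ) → ℂ[X])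
    (hV : Continuous V) (hirr : Irreducible V)
    (hP : EulerFactors S w ι V P) (hW : ∀ j, Continuous (W j))
    (hss : ∀ j, Semisimple (W j)) (hR : ∀ j, EulerFactors S w ι (W j) (R j))
    (hc : Concentrated fun τ => Real.log (edgeAbs w P τ) -
      ∑ j, m j * Real.log (edgeAbs w (R j) τ)) :
    ∃ j, 0 < m j ∧ ∃ H : Matrix (Fin (N j)) (Fin n) (PadicAlgCl p),
      (∀ x, H.mulVec x = 0 → x = 0) ∧ ∀ g, matrix (W j) g * H = H * matrix V g := by
  classical
  set M : ℕ := (n + ∑ j, (-m j).toNat * N j) + ∑ j, (m j).toNat * N j with hM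
  have hs : Pool.Agent.Y719.EL.N.Sep
      (fun (_ : Unit) (_ : HeightOneSpectrum (𝓞 ℚ)) => (1 : ℂ)) M := by
    obtain ⟨ψ, -, h2⟩ := Pool.Agent.Y719.EL.N.exists_sep (K := ℚ) M
    have h3 := Pool.Agent.Y719.EL.N.sep_pow (N := M) (K := ℚ) (ψ := ψ)
      fun v w hvw k l hk hkN hl hlN _ => h2 v w hvw k l hk hkN hl hlN
    intro q hq k hk c hc' hj
    refine h3 q hq k hk c hc' fun i => ?_
    have h4 : (i : ℕ) = 0 := by
      have h5 : (i : ℕ) < 1 := lt_of_lt_of_eq i.2 (Module.finrank_self ℚ)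
      omega
    have h6 := hj ()
    simp only [one_pow, mul_one] at h6
    simp only [h4, pow_zero, one_pow, mul_one]
    exact h6
  have he : ∀ (P : HeightOneSpectrum (𝓞 ℚ) → ℂ[X]) (τ : ℝ),
      Pool.Agent.Y719.EL.N.eA w P (fun _ => 1) τ = edgeAbs w P τ := by
    intro P τ
    have hL : ∀ s, Pool.Agent.Y719.EL.N.LS P (fun _ => 1) s = L P s := by
      intro s
      unfold Pool.Agent.Y719.EL.N.LS L
      refine tprod_congr fun v => ?_
      rw [one_mul]
      rfl
    unfold Pool.Agent.Y719.EL.N.eA edgeAbs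
    simp_rw [hL]
  have hF : ∀ {N : ℕ} (W : Gal(AlgebraicClosure ℚ/ℚ) →* GL (Fin N) (PadicAlgCl p))
      (R : HeightOneSpectrum (𝓞 ℚ) → ℂ[X]), EulerFactors S w ι W R →
      Pool.Agent.Y719.NG.Fac S w ι W R := fun W R h =>
    ⟨h.bad, fun v hv => ⟨h.unramified v hv, h.frobenius v hv⟩, h.weight⟩
  exact Pool.Agent.Y719.NG.twisted_moduli (I := Unit) (w := w) (m := m) (P₀ := P) (P := R)
    (ψ := fun _ _ => 1) (N := N) (n := N) (R := W) (hF V P hP).typ
    (fun j => (hF (W j) (R j) (hR j)).typ) (fun _ _ => by simp) (M := M) (by omega) (by omega) hs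
    (fun _ => by
      simp_rw [he]
      exact hc) ι hV hirr hW hss
    (Pool.Agent.Y719.NG.bad ℚ S) (Pool.Agent.Y719.NG.bad_finite hS) (hF V P hP).att
    (fun j => (hF (W j) (R j) (hR j)).att)

end Pool.Agent.Results.MP_b583a4_nt.OneModulus
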